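import Pool.Agent.H207.BT.Stm

/-!
# Following the orbit of a critical value, with relative closeness
-/

set_option autoImplicit false

open Topology Filter Metric Set MeasureTheory Polynomial

namespace Pool.Agent.H87.BT207

open Pool.Agent.H211.HY Pool.Agent.H207.BT

/-- the orbit of the critical value at the parameter `0`, and continuity -/
theorem YY_cont {k : ℕ} {i : Fin k} {f : ℕ → (Fin k → ℂ) → ℂ → ℂ} {v : (Fin k → ℂ) → ℂ} {z : ℕ → ℂ}
    {x : ℕ → ℝ} {ρ C c μ : ℝ} {κ : ℂ} (h : Good i f v z x ρ C c μ κ) :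
    ∀ n, YY f v n 0 = z n ∧ ContinuousAt (YY f v n) 0 := by
  intro n
  induction n with
  | zero =>
    refine ⟨h.v0, ?_⟩
    have h1 : DifferentiableAt ℂ v 0 :=
      h.vd.differentiableAt (isOpen_ball.mem_nhds (mem_ball_self h.ρ0))
    exact h1.continuousAt
  | succ n ih =>
    obtain ⟨h1, h2⟩ := ih
    refine ⟨?_, ?_⟩
    · show f n 0 (YY f v n 0) = z (n + 1)
      rw [h1, h.fz]
    · have h3 : DifferentiableAt ℂ (fun p : (Fin k → ℂ) × ℂ => f n p.1 p.2) (0, YY f v n 0) := by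
        refine (h.fd n).differentiableAt ?_
        rw [h1]
        exact (isOpen_ball.prod isOpen_ball).mem_nhds ⟨mem_ball_self h.ρ0, mem_ball_self h.ρ0⟩
      have h4 : ContinuousAt (fun s : Fin k → ℂ => (s, YY f v n s)) 0 :=
        continuousAt_id.prodMk h2
      exact ContinuousAt.comp (f := fun s : Fin k → ℂ => (s, YY f v n s))
        (g := fun p : (Fin k → ℂ) × ℂ => f n p.1 p.2) h3.continuousAt h4

theorem t_FOL2 (h : Pool.Agent.H211.HY.S_FOL) : Pool.Agent.H207.BT.S_FOL2 := by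
  intro k i f v z x ρ C c μ κ hG ε hε τ hτ
  obtain ⟨θ', hθ', r₀', hr₀', N₀, hF⟩ := h k i f v z x ρ C c μ κ hG (min ε 1) (lt_min hε one_pos)
  have hc := hG.c0
  obtain ⟨K, hK⟩ : ∃ K : ℝ, K = 1 / c + (‖κ‖ + 1) := ⟨_, rfl⟩
  have hK0 : 0 < K := by
    rw [hK]
    have h1 : 0 < 1 / c := by positivity
    have h2 := norm_nonneg κ
    linarith
  -- the first times
  have hev : ∀ᶠ s : Fin k → ℂ in 𝓝 0, ∀ n ∈ Finset.range N₀, ‖s‖ + ‖YY f v n s - z n‖ < τ * x n := by
    rw [Filter.eventually_all_finset]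
    intro n _
    obtain ⟨h1, h2⟩ := YY_cont hG n
    have h3 : ContinuousAt (fun s : Fin k → ℂ => ‖s‖ + ‖YY f v n s - z n‖) 0 :=
      continuous_norm.continuousAt.add (h2.sub continuousAt_const).norm
    have h4 : ‖(0 : Fin k → ℂ)‖ + ‖YY f v n 0 - z n‖ = 0 := by
      rw [h1, sub_self, norm_zero, norm_zero, add_zero]
    have h5 : Tendsto (fun s : Fin k → ℂ => ‖s‖ + ‖YY f v n s - z n‖) (𝓝 0) (𝓝 0) := by
      have h6 := h3.tendsto
      rwa [h4] at h6
    exact h5.eventually_lt_const (mul_pos hτ (hG.xx n).1)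
  obtain ⟨δ, hδ, hδ'⟩ := Metric.eventually_nhds_iff.1 hev
  refine ⟨min θ' (τ / K), lt_min hθ' (div_pos hτ hK0), min r₀' δ, lt_min hr₀' hδ, N₀, ?_⟩
  intro r N hr hr0 hN hsum
  have hsum' : ∑ n ∈ Finset.range N, r * ‖DD f z n‖ / x n ≤ θ' := hsum.trans (min_le_left _ _)
  obtain ⟨h1, h2⟩ := hF r N hr (hr0.trans (min_le_left _ _)) hN hsum'
  refine ⟨h1, fun s hs => ?_⟩
  obtain ⟨h3, h4⟩ := h2 s hs
  have hsr : ‖s‖ < r := by simpa using hs
  refine ⟨fun n hn => ⟨h3 n hn, ?_⟩, ?_⟩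
  · rcases lt_or_ge n N₀ with hn0 | hn0
    · have h5 : dist s 0 < δ := by
        rw [dist_zero_right]
        exact hsr.trans_le (hr0.trans (min_le_right _ _))
      exact (hδ' h5 n (Finset.mem_range.2 hn0)).le
    · have hnonneg : ∀ m, 0 ≤ r * ‖DD f z m‖ / x m := fun m =>
        div_nonneg (mul_nonneg hr.le (norm_nonneg _)) (hG.xx m).1.le
      have h5 : ∑ m ∈ Finset.range n, r * ‖DD f z m‖ / x m ≤ θ' := by
        refine le_trans ?_ hsum'
        exact Finset.sum_le_sum_of_subset_of_nonneg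
          (Finset.range_mono hn.le) fun m _ _ => hnonneg m
      obtain ⟨-, h6⟩ := hF r n hr (hr0.trans (min_le_left _ _)) hn0 h5
      obtain ⟨-, h7⟩ := h6 s hs
      have h8 : r * ‖DD f z n‖ / x n ≤ τ / K := by
        refine le_trans ?_ (hsum.trans (min_le_right _ _))
        exact Finset.single_le_sum (f := fun m => r * ‖DD f z m‖ / x m) (fun m _ => hnonneg m)
          (Finset.mem_range.2 hn)
      have hx := (hG.xx n).1
      have h9 : r * ‖DD f z n‖ ≤ τ / K * x n := (div_le_iff₀ hx).1 h8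
      have h10 : ‖YY f v n s - z n‖ ≤ (‖κ‖ + 1) * (r * ‖DD f z n‖) := by
        have e1 : YY f v n s - z n = (YY f v n s - z n - κ * DD f z n * s i) +
            κ * DD f z n * s i := by ring
        rw [e1]
        refine (norm_add_le _ _).trans ?_
        have e2 : ‖κ * DD f z n * s i‖ ≤ ‖κ‖ * (r * ‖DD f z n‖) := by
          rw [norm_mul, norm_mul]
          have e3 : ‖s i‖ ≤ r := (norm_le_pi_norm s i).trans hsr.le
          calc ‖κ‖ * ‖DD f z n‖ * ‖s i‖ ≤ ‖κ‖ * ‖DD f z n‖ * r :=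
                mul_le_mul_of_nonneg_left e3 (by positivity)
            _ = ‖κ‖ * (r * ‖DD f z n‖) := by ring
        have e4 : ‖YY f v n s - z n - κ * DD f z n * s i‖ ≤ r * ‖DD f z n‖ := by
          refine h7.trans ?_
          have e5 : min ε 1 * r ≤ 1 * r := mul_le_mul_of_nonneg_right (min_le_right _ _) hr.le
          calc min ε 1 * r * ‖DD f z n‖ ≤ 1 * r * ‖DD f z n‖ :=
                mul_le_mul_of_nonneg_right e5 (norm_nonneg _)
            _ = r * ‖DD f z n‖ := by ring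
        linarith
      have h11 : ‖s‖ ≤ 1 / c * (r * ‖DD f z n‖) := by
        have e1 : c ≤ ‖DD f z n‖ := by
          refine le_trans ?_ (hG.gr n)
          have e2 : 1 ≤ μ ^ n := one_le_pow₀ hG.μ1.le
          nlinarith
        have e2 : r ≤ 1 / c * (r * ‖DD f z n‖) := by
          rw [one_div, inv_mul_eq_div, le_div_iff₀ hc]
          exact mul_le_mul_of_nonneg_left e1 hr.le
        exact hsr.le.trans e2
      have h12 : K * (r * ‖DD f z n‖) ≤ τ * x n := by
        calc K * (r * ‖DD f z n‖) ≤ K * (τ / K * x n) := mul_le_mul_of_nonneg_left h9 hK0.le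
          _ = τ * x n := by field_simp
      have h13 : K * (r * ‖DD f z n‖) = 1 / c * (r * ‖DD f z n‖) + (‖κ‖ + 1) * (r * ‖DD f z n‖) := by
        rw [hK]
        ring
      linarith
  · refine h4.trans ?_
    have e5 : min ε 1 * r ≤ ε * r := mul_le_mul_of_nonneg_right (min_le_left _ _) hr.le
    exact mul_le_mul_of_nonneg_right e5 (norm_nonneg _)

end Pool.Agent.H87.BT207
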